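import Mathlib

/-!
Statements of the modules of the project non complete smooth norms (MP_8d41d4_an).
Every statement is a `Prop`; module `ID` is to prove `theorem H857NC.ID : ID_stm`.
-/

set_option autoImplicit false

namespace H857NC

open Filter Topology Set

universe u

section Defs

variable {X : Type u} [NormedAddCommGroup X] [NormedSpace ℝ X]

/-- `N` is a norm on `X` equivalent to the given norm of `X`. -/
structure IsEquivNorm (N : Seminorm ℝ X) : Prop where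
  upper : ∃ b : ℝ, 0 < b ∧ ∀ x, N x ≤ b * ‖x‖
  lower : ∃ a : ℝ, 0 < a ∧ ∀ x, a * ‖x‖ ≤ N x

/-- all finite signed sums of the sequence `h` have norm at most `C` -/
def BddSigned (h : ℕ → X) (C : ℝ) : Prop :=
  ∀ (F : Finset ℕ) (σ : ℕ → ℝ), (∀ n, σ n = 1 ∨ σ n = -1) → ‖∑ n ∈ F, σ n • h n‖ ≤ C

/-- the derivative of `N` is locally uniformly continuous off the origin -/
def LocUC (N : Seminorm ℝ X) : Prop :=
  ∀ x : X, x ≠ 0 → ∃ r > 0, UniformContinuousOn (fderiv ℝ N) (Metric.ball x r)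

/-- the norm `M` is uniformly smooth -/
def USmooth (M : Seminorm ℝ X) : Prop :=
  ∀ η > 0, ∃ τ > 0, ∀ x y : X, M x = 1 → M y ≤ τ → M (x + y) + M (x - y) ≤ 2 + η * M y

end Defs

/-- `X` contains a sequence, bounded away from zero, with bounded signed sums -/
def HasC0Seq (X : Type u) [NormedAddCommGroup X] [NormedSpace ℝ X] : Prop :=
  ∃ (h : ℕ → X) (δ C : ℝ), 0 < δ ∧ (∀ n, δ ≤ ‖h n‖) ∧ BddSigned h C

/-- there is a continuous projection with infinite dimensional separable range -/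
def HasSepProj (X : Type u) [NormedAddCommGroup X] [NormedSpace ℝ X] : Prop :=
  ∃ P : X →L[ℝ] X, (∀ x, P (P x) = P x) ∧ TopologicalSpace.IsSeparable (Set.range P) ∧
    ¬ FiniteDimensional ℝ (LinearMap.range (P : X →ₗ[ℝ] X))

/-- the sequence `b_0 = 1`, `b_{n+1} = b_n + 2^{-n-3}` -/
noncomputable def bb (n : ℕ) : ℝ := 5 / 4 - (1 / 4) * (1 / 2 : ℝ) ^ n

/-! ### General facts -/

/-- NC: a norm which is dominated by the given complete norm but not equivalent to it is not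
complete. -/
def NC_stm : Prop := ∀ (X : Type u) [NormedAddCommGroup X] [NormedSpace ℝ X] [CompleteSpace X]
    (p : Seminorm ℝ X), (∀ x, p x = 0 → x = 0) → (∃ b : ℝ, ∀ x, p x ≤ b * ‖x‖) →
    (∀ a : ℝ, 0 < a → ∃ x, p x < a * ‖x‖) →
    ∃ v : ℕ → X, (∀ ε : ℝ, 0 < ε → ∃ M, ∀ m ≥ M, ∀ n ≥ M, p (v m - v n) < ε) ∧
      ¬ ∃ x, ∀ ε : ℝ, 0 < ε → ∃ M, ∀ n ≥ M, p (v n - x) < ε

/-- TR: an equivalent norm is the norm of an isomorphic space. -/
def TR_stm : Prop := ∀ (X : Type u) [NormedAddCommGroup X] [NormedSpace ℝ X]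
    (M : Seminorm ℝ X), IsEquivNorm M →
    ∃ (Y : Type u) (_ : NormedAddCommGroup Y) (_ : NormedSpace ℝ Y) (e : X ≃L[ℝ] Y),
      ∀ x, ‖e x‖ = M x

/-- TOT: total sequence of functionals on a separable infinite dimensional subspace. -/
def TOT_stm : Prop := ∀ (X : Type u) [NormedAddCommGroup X] [NormedSpace ℝ X]
    (E : Submodule ℝ X), TopologicalSpace.IsSeparable (E : Set X) → ¬ FiniteDimensional ℝ E →
    ∃ (f : ℕ → StrongDual ℝ X) (v : ℕ → X), (∀ n, ‖f n‖ ≤ 1) ∧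
      (∀ x ∈ E, (∀ n, f n x = 0) → x = 0) ∧ (∀ n, v n ∈ E ∧ ‖v n‖ = 1) ∧
      ∀ m n, m < n → f m (v n) = 0

/-- BIO: biorthogonal sequences in an infinite dimensional subspace. -/
def BIO_stm : Prop := ∀ (X : Type u) [NormedAddCommGroup X] [NormedSpace ℝ X]
    (E : Submodule ℝ X), ¬ FiniteDimensional ℝ E →
    ∃ (e : ℕ → X) (g : ℕ → StrongDual ℝ X), (∀ n, e n ∈ E ∧ ‖e n‖ = 1) ∧
      ∀ m n, g m (e n) = if m = n then 1 else 0

/-- OPT: an injective operator which is not bounded below, from a projection with separable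
range. -/
def OPT_stm : Prop := ∀ (X : Type u) [NormedAddCommGroup X] [NormedSpace ℝ X] [CompleteSpace X]
    (P : X →L[ℝ] X), (∀ x, P (P x) = P x) →
    ∀ (f : ℕ → StrongDual ℝ X) (v : ℕ → X) (e : ℕ → X) (g : ℕ → StrongDual ℝ X),
    (∀ n, ‖f n‖ ≤ 1) → (∀ x, P x = x → (∀ n, f n x = 0) → x = 0) →
    (∀ n, P (v n) = v n ∧ ‖v n‖ = 1) → (∀ m n, m < n → f m (v n) = 0) →
    (∀ n, P (e n) = e n ∧ ‖e n‖ = 1) → (∀ m n, g m (e n) = if m = n then 1 else 0) →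
    ∃ T : X →L[ℝ] X, Function.Injective T ∧ ∀ a : ℝ, 0 < a → ∃ x, ‖T x‖ < a * ‖x‖

/-! ### Case A: `X` contains `c_0` -/

/-- SIG: consequences of bounded signed sums. -/
def SIG_stm : Prop := ∀ (X : Type u) [NormedAddCommGroup X] [NormedSpace ℝ X]
    (h : ℕ → X) (C : ℝ), BddSigned h C →
    (∀ (f : StrongDual ℝ X) (F : Finset ℕ), ∑ n ∈ F, |f (h n)| ≤ C * ‖f‖) ∧
    (∀ (F : Finset ℕ) (t : ℕ → ℝ) (M : ℝ), 0 ≤ M → (∀ n ∈ F, |t n| ≤ M) →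
      ‖∑ n ∈ F, t n • h n‖ ≤ C * M)

/-- PRJ: an almost biorthogonal system with a weak* null sequence of functionals gives a
projection. -/
def PRJ_stm : Prop := ∀ (X : Type u) [NormedAddCommGroup X] [NormedSpace ℝ X] [CompleteSpace X]
    (h : ℕ → X) (g : ℕ → StrongDual ℝ X) (C G κ : ℝ),
    (∀ (F : Finset ℕ) (t : ℕ → ℝ) (M : ℝ), 0 ≤ M → (∀ n ∈ F, |t n| ≤ M) →
      ‖∑ n ∈ F, t n • h n‖ ≤ C * M) →
    (∀ n, ‖g n‖ ≤ G) → (∀ x, Tendsto (fun n => g n x) atTop (𝓝 0)) →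
    (∀ n, g n (h n) = 1) → 0 ≤ κ → 16 * κ * (C + 1) * (G + 1) ≤ 1 →
    (∀ m n, m ≠ n → |g m (h n)| ≤ κ * (1 / 2 : ℝ) ^ (m + n)) →
    HasSepProj X

/-- SUB: extraction of a subsequence. -/
def SUB_stm : Prop := ∀ (X : Type u) [NormedAddCommGroup X] [NormedSpace ℝ X]
    (h : ℕ → X) (g : ℕ → StrongDual ℝ X),
    (∀ x, Tendsto (fun n => g n x) atTop (𝓝 0)) →
    (∀ f : StrongDual ℝ X, Tendsto (fun n => f (h n)) atTop (𝓝 0)) →
    ∀ κ : ℝ, 0 < κ → ∃ φ : ℕ → ℕ, StrictMono φ ∧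
      ∀ m n, m ≠ n → |g (φ m) (h (φ n))| ≤ κ * (1 / 2 : ℝ) ^ (m + n)

/-- BP: the Borwein-Preiss variational principle. -/
def BP_stm : Prop := ∀ (X : Type u) [NormedAddCommGroup X] [NormedSpace ℝ X] [CompleteSpace X]
    (N : Seminorm ℝ X), IsEquivNorm N → ∀ (F : X → ℝ), Continuous F → ∀ x0 : X,
    (∀ x, F x ≤ F x0 + 1) →
    ∃ (w : X) (v : ℕ → X), N (w - x0) ≤ 4 ∧ (∀ k, N (v k - x0) ≤ 4) ∧
      ∀ x, F x - ∑' k, (1 / 2 : ℝ) ^ k * (N (x - v k)) ^ 2 ≤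
        F w - ∑' k, (1 / 2 : ℝ) ^ k * (N (w - v k)) ^ 2

/-- DER: directional derivatives of the square of a smooth norm and of a series of such squares. -/
def DER_stm : Prop := ∀ (X : Type u) [NormedAddCommGroup X] [NormedSpace ℝ X]
    (N : Seminorm ℝ X), IsEquivNorm N → (∀ z, z ≠ 0 → DifferentiableAt ℝ N z) →
    (∀ w y : X, DifferentiableAt ℝ (fun t : ℝ => (N (w + t • y)) ^ 2) 0) ∧
    ∀ (v : ℕ → X) (R : ℝ), (∀ k, N (v k) ≤ R) → ∀ w y : X,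
      DifferentiableAt ℝ (fun t : ℝ => ∑' k, (1 / 2 : ℝ) ^ k * (N (w + t • y - v k)) ^ 2) 0

/-- SUP: a smooth upper support of the function `limsup N(x + h_n)` near the origin. -/
def SUP_stm : Prop := ∀ (X : Type u) [NormedAddCommGroup X] [NormedSpace ℝ X] [CompleteSpace X]
    (N : Seminorm ℝ X), IsEquivNorm N → (∀ z, z ≠ 0 → DifferentiableAt ℝ N z) →
    ∀ (h : ℕ → X) (C : ℝ), (∀ n, N (h n) ≤ C) → ∀ ρ : ℝ, 0 < ρ →
    ∃ (w : X) (Ψ : X → ℝ), N w ≤ ρ ∧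
      (∀ y, limsup (fun n => N (w + y + h n)) atTop - limsup (fun n => N (w + h n)) atTop
        ≤ Ψ (w + y) - Ψ w) ∧
      ∀ y, DifferentiableAt ℝ (fun t : ℝ => Ψ (w + t • y)) 0

/-- LIM: from the support to a pointwise convergent sequence of norming functionals. -/
def LIM_stm : Prop := ∀ (X : Type u) [NormedAddCommGroup X] [NormedSpace ℝ X]
    (N : Seminorm ℝ X), IsEquivNorm N →
    ∀ (h : ℕ → X) (δ C : ℝ), 0 < δ → (∀ n, δ ≤ N (h n)) → (∀ n, N (h n) ≤ C) →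
    ∀ (w : X) (Ψ : X → ℝ), N w ≤ δ / 8 →
      (∀ y, limsup (fun n => N (w + y + h n)) atTop - limsup (fun n => N (w + h n)) atTop
        ≤ Ψ (w + y) - Ψ w) →
      (∀ y, DifferentiableAt ℝ (fun t : ℝ => Ψ (w + t • y)) 0) →
    ∃ (φ : ℕ → ℕ) (f : ℕ → StrongDual ℝ X), StrictMono φ ∧ (∀ i x, |f i x| ≤ N x) ∧
      (∀ i, δ / 2 ≤ f i (h (φ i))) ∧ ∀ y, ∃ l, Tendsto (fun i => f i y) atTop (𝓝 l)

/-! ### Case B: `X` does not contain `c_0` -/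

/-- CON: the greedy construction. -/
def CON_stm : Prop := ∀ (X : Type u) [NormedAddCommGroup X] [NormedSpace ℝ X]
    (N : Seminorm ℝ X), IsEquivNorm N → ∀ x0 : X, N x0 = 1 →
    ∃ h : ℕ → X,
      (∀ (n : ℕ) (σ : ℕ → ℝ), (∀ i, σ i = 1 ∨ σ i = -1) →
        N (x0 + ∑ i ∈ Finset.range n, σ i • h i) ≤ bb n) ∧
      (∀ (n : ℕ) (g : X), (∀ σ : ℕ → ℝ, (∀ i, σ i = 1 ∨ σ i = -1) →
        N (x0 + ∑ i ∈ Finset.range n, σ i • h i + g) ≤ bb (n + 1) ∧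
        N (x0 + ∑ i ∈ Finset.range n, σ i • h i - g) ≤ bb (n + 1)) → N g ≤ 2 * N (h n))

/-- TAIL: if there is no `c_0` sequence, bounded signed sums have small tails. -/
def TAIL_stm : Prop := ∀ (X : Type u) [NormedAddCommGroup X] [NormedSpace ℝ X],
    ¬ HasC0Seq X → ∀ (h : ℕ → X) (C : ℝ), BddSigned h C → ∀ ε : ℝ, 0 < ε →
    ∃ n0 : ℕ, ∀ (F : Finset ℕ), (∀ i ∈ F, n0 ≤ i) → ∀ σ : ℕ → ℝ, (∀ n, σ n = 1 ∨ σ n = -1) →
      ‖∑ n ∈ F, σ n • h n‖ ≤ ε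

/-- UCB: local uniform continuity is uniform near a totally bounded set. -/
def UCB_stm : Prop := ∀ (X : Type u) [NormedAddCommGroup X] [NormedSpace ℝ X] [CompleteSpace X]
    (Z : Type u) [NormedAddCommGroup Z] (D : X → Z) (K : Set X), TotallyBounded K →
    (∀ x ∈ closure K, ∃ r > 0, UniformContinuousOn D (Metric.ball x r)) →
    ∃ r > 0, ∀ k ∈ K, UniformContinuousOn D (Metric.ball k r)

/-- CB: output of the construction in case B. -/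
def CB_stm : Prop := ∀ (X : Type u) [NormedAddCommGroup X] [NormedSpace ℝ X] [CompleteSpace X]
    [Nontrivial X] (N : Seminorm ℝ X), IsEquivNorm N → LocUC N → ¬ HasC0Seq X →
    ∃ (K : Finset X) (b c r : ℝ), 0 < c ∧ 0 < r ∧ (∀ k ∈ K, N k ≤ b) ∧
      (∀ k ∈ K, ∀ z ∈ Metric.ball k r, z ≠ 0) ∧
      (∀ k ∈ K, UniformContinuousOn (fderiv ℝ N) (Metric.ball k r)) ∧
      ∀ h : X, r / 2 ≤ ‖h‖ → ∃ k ∈ K, b + c ≤ N (k + h) ∨ b + c ≤ N (k - h)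

/-- PHI: a smooth convex function separating the origin from the complement of a ball. -/
def PHI_stm : Prop := ∀ (X : Type u) [NormedAddCommGroup X] [NormedSpace ℝ X]
    (N : Seminorm ℝ X), IsEquivNorm N → (∀ z, z ≠ 0 → DifferentiableAt ℝ N z) →
    ∀ (K : Finset X) (b c r : ℝ), 0 < c → 0 < r → (∀ k ∈ K, N k ≤ b) →
      (∀ k ∈ K, ∀ z ∈ Metric.ball k r, z ≠ 0) →
      (∀ k ∈ K, UniformContinuousOn (fderiv ℝ N) (Metric.ball k r)) →
      (∀ h : X, r / 2 ≤ ‖h‖ → ∃ k ∈ K, b + c ≤ N (k + h) ∨ b + c ≤ N (k - h)) →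
    ∃ Φ : X → ℝ, ConvexOn ℝ univ Φ ∧ Continuous Φ ∧ (∀ x, Φ (-x) = Φ x) ∧ Φ 0 = 0 ∧
      (∀ x ∈ Metric.ball (0 : X) r, DifferentiableAt ℝ Φ x) ∧
      UniformContinuousOn (fderiv ℝ Φ) (Metric.ball (0 : X) r) ∧
      ∀ h : X, r / 2 ≤ ‖h‖ → c ^ 2 ≤ Φ h

/-- UST: from such a function to a uniformly smooth norm. -/
def UST_stm : Prop := ∀ (X : Type u) [NormedAddCommGroup X] [NormedSpace ℝ X]
    (Φ : X → ℝ) (c r : ℝ), 0 < c → 0 < r →
    ConvexOn ℝ univ Φ → Continuous Φ → (∀ x, Φ (-x) = Φ x) → Φ 0 = 0 →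
      (∀ x ∈ Metric.ball (0 : X) r, DifferentiableAt ℝ Φ x) →
      UniformContinuousOn (fderiv ℝ Φ) (Metric.ball (0 : X) r) →
      (∀ h : X, r / 2 ≤ ‖h‖ → c ^ 2 ≤ Φ h) →
    ∃ M : Seminorm ℝ X, IsEquivNorm M ∧ USmooth M

/-- DUC: the dual of a uniformly smooth space is uniformly convex. -/
def DUC_stm : Prop := ∀ (X : Type u) [NormedAddCommGroup X] [NormedSpace ℝ X],
    (∀ η : ℝ, 0 < η → ∃ τ > 0, ∀ x y : X, ‖x‖ = 1 → ‖y‖ ≤ τ →
      ‖x + y‖ + ‖x - y‖ ≤ 2 + η * ‖y‖) →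
    UniformConvexSpace (StrongDual ℝ X)

/-- MPT: Milman-Pettis. -/
def MPT_stm : Prop := ∀ (G : Type u) [NormedAddCommGroup G] [NormedSpace ℝ G] [CompleteSpace G]
    [UniformConvexSpace G], Function.Surjective (NormedSpace.inclusionInDoubleDual ℝ G)

/-- LN1: mutually norming separable subspaces. -/
def LN1_stm : Prop := ∀ (X : Type u) [NormedAddCommGroup X] [NormedSpace ℝ X],
    ¬ FiniteDimensional ℝ X →
    ∃ (E : Submodule ℝ X) (G : Submodule ℝ (StrongDual ℝ X)), IsClosed (E : Set X) ∧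
      TopologicalSpace.IsSeparable (E : Set X) ∧ ¬ FiniteDimensional ℝ E ∧
      IsClosed (G : Set (StrongDual ℝ X)) ∧
      (∀ e ∈ E, ∀ c : ℝ, (∀ g ∈ G, ‖g‖ ≤ 1 → g e ≤ c) → ‖e‖ ≤ c) ∧
      (∀ g ∈ G, (∀ e ∈ E, g e = 0) → g = 0)

/-- LN2: the projection. -/
def LN2_stm : Prop := ∀ (X : Type u) [NormedAddCommGroup X] [NormedSpace ℝ X] [CompleteSpace X]
    (E : Submodule ℝ X) (G : Submodule ℝ (StrongDual ℝ X)), IsClosed (E : Set X) →
      (∀ e ∈ E, ∀ c : ℝ, (∀ g ∈ G, ‖g‖ ≤ 1 → g e ≤ c) → ‖e‖ ≤ c) →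
      (∀ g ∈ G, (∀ e ∈ E, g e = 0) → g = 0) →
      Function.Surjective (NormedSpace.inclusionInDoubleDual ℝ G) →
    ∃ P : X →L[ℝ] X, (∀ x, P x ∈ E) ∧ ∀ x ∈ E, P x = x

/-! ### The case `k = 1` -/

/-- CD1: a convex function differentiable on an open set is `C^1` there. -/
def CD1_stm : Prop := ∀ (X : Type u) [NormedAddCommGroup X] [NormedSpace ℝ X]
    (f : X → ℝ) (U : Set X), ConvexOn ℝ univ f → Continuous f → IsOpen U →
    (∀ x ∈ U, DifferentiableAt ℝ f x) → ContDiffOn ℝ 1 f U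

/-- QUO: a `C^1` seminorm with separable infinite dimensional kernel gives a non complete
`C^1` norm. -/
def QUO_stm : Prop := ∀ (X : Type u) [NormedAddCommGroup X] [NormedSpace ℝ X]
    (M : Seminorm ℝ X), (∃ b : ℝ, ∀ x, M x ≤ b * ‖x‖) →
    (∀ x, M x ≠ 0 → DifferentiableAt ℝ M x) →
    ∀ (f : ℕ → StrongDual ℝ X) (v : ℕ → X), (∀ n, ‖f n‖ ≤ 1) →
      (∀ x, M x = 0 → (∀ n, f n x = 0) → x = 0) → (∀ n, M (v n) = 0 ∧ ‖v n‖ = 1) →
      (∀ m n, m < n → f m (v n) = 0) →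
    ∃ p : Seminorm ℝ X, (∀ x, p x = 0 → x = 0) ∧ (∃ b : ℝ, ∀ x, p x ≤ b * ‖x‖) ∧
      (∀ a : ℝ, 0 < a → ∃ x, p x < a * ‖x‖) ∧ ∀ x, x ≠ 0 → DifferentiableAt ℝ p x

/-- RSB: a reflexive infinite dimensional subspace contains a separable one. -/
def RSB_stm : Prop := ∀ (X : Type u) [NormedAddCommGroup X] [NormedSpace ℝ X] [CompleteSpace X]
    (E : Submodule ℝ X), IsClosed (E : Set X) → ¬ FiniteDimensional ℝ E →
    Function.Surjective (NormedSpace.inclusionInDoubleDual ℝ E) →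
    ∃ E' : Submodule ℝ X, IsClosed (E' : Set X) ∧ ¬ FiniteDimensional ℝ E' ∧
      TopologicalSpace.IsSeparable (E' : Set X) ∧
      Function.Surjective (NormedSpace.inclusionInDoubleDual ℝ E')

/-- ATT: the distance to a reflexive subspace is attained. -/
def ATT_stm : Prop := ∀ (X : Type u) [NormedAddCommGroup X] [NormedSpace ℝ X]
    (N : Seminorm ℝ X), IsEquivNorm N → ∀ (E : Submodule ℝ X),
    Function.Surjective (NormedSpace.inclusionInDoubleDual ℝ E) →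
    ∀ x : X, ∃ e ∈ E, ∀ e' ∈ E, N (x - e) ≤ N (x - e')

/-- QSN: the quotient seminorm is differentiable off its kernel if it is attained. -/
def QSN_stm : Prop := ∀ (X : Type u) [NormedAddCommGroup X] [NormedSpace ℝ X]
    (N : Seminorm ℝ X), IsEquivNorm N → (∀ z, z ≠ 0 → DifferentiableAt ℝ N z) →
    ∀ (E : Submodule ℝ X), (∀ x : X, ∃ e ∈ E, ∀ e' ∈ E, N (x - e) ≤ N (x - e')) →
    ∃ M : Seminorm ℝ X, (∃ b : ℝ, ∀ x, M x ≤ b * ‖x‖) ∧ (∀ x, M x = 0 ↔ x ∈ E) ∧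
      ∀ x, M x ≠ 0 → DifferentiableAt ℝ M x

/-- LUR: if the dual norm is locally uniformly rotund there is a non complete `C^1` norm. -/
def LUR_stm : Prop := ∀ (X : Type u) [NormedAddCommGroup X] [NormedSpace ℝ X] [CompleteSpace X],
    (∀ (g : StrongDual ℝ X) (gn : ℕ → StrongDual ℝ X),
      Tendsto (fun n => 2 * ‖g‖ ^ 2 + 2 * ‖gn n‖ ^ 2 - ‖g + gn n‖ ^ 2) atTop (𝓝 0) →
      Tendsto gn atTop (𝓝 g)) →
    ∀ (E : Submodule ℝ X), IsClosed (E : Set X) →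
    ∀ (f : ℕ → StrongDual ℝ X) (v : ℕ → X), (∀ n, ‖f n‖ ≤ 1) →
      (∀ x ∈ E, (∀ n, f n x = 0) → x = 0) → (∀ n, v n ∈ E ∧ ‖v n‖ = 1) →
      (∀ m n, m < n → f m (v n) = 0) →
    ∃ p : Seminorm ℝ X, (∀ x, p x = 0 → x = 0) ∧ (∃ b : ℝ, ∀ x, p x ≤ b * ‖x‖) ∧
      (∀ a : ℝ, 0 < a → ∃ x, p x < a * ‖x‖) ∧ ∀ x, x ≠ 0 → DifferentiableAt ℝ p x

end H857NC
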